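import Mathlib
import Pool.Agent.H29.GradF.Family

/-!
# An explicit smooth family of non-axisymmetric MHD equilibria with nested pressure surfaces and
rotational transform two
-/

open scoped ContDiff

namespace Pool.Agent.Results.MP_919d81_mp.GradFamily

open Pool.Agent.H29.Grad Pool.Agent.H29.GradF

/-- **Grad's conjecture is false**, also in smooth one-parameter families and for equilibria with
nonzero rotational transform.  For every `l > 1 / √2` the explicit pair `(field l, pressure l)` is
a smooth magnetohydrostatic equilibrium on the solid toroidal domain `solidTorus l`, its pressure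
has toroidally nested level sets, the field has rotational transform `2` on every regular level
set, and the equilibrium is axisymmetric if and only if `l = 1`.  Field and pressure are smooth
functions of the parameter and the point together. -/
theorem result :
    (∀ l : ℝ, 0 < l → 1 / 2 < l ^ 2 →
      IsSolidTorus (solidTorus l) ∧ IsMHDEquilibrium (solidTorus l) (field l) (pressure l) ∧
      HasToroidallyNestedLevelSets (solidTorus l) (pressure l) ∧
      (∀ x ∈ solidTorus l, gradient (pressure l) x ≠ 0 →
        HasRotationalTransform {y | y ∈ solidTorus l ∧ pressure l x ≤ pressure l y} (field l) 2) ∧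
      (IsAxisymmetric (solidTorus l) (field l) (pressure l) ↔ l = 1)) ∧
    ∃ W : Set (ℝ × R3), IsOpen W ∧ (∀ l : ℝ, 0 < l → 1 / 2 < l ^ 2 → ∀ x ∈ solidTorus l, (l, x) ∈ W) ∧
      ContDiffOn ℝ ∞ (fun q : ℝ × R3 => field q.1 q.2) W ∧
      ContDiffOn ℝ ∞ (fun q : ℝ × R3 => pressure q.1 q.2) W :=
  family

end Pool.Agent.Results.MP_919d81_mp.GradFamily
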